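import Pool.Agent.H240.GU.Def5
import Pool.Graph.R_seed8.Y46.EG.Germ

/-!
# GV-2: curvature, smooth functions and eigenfunctions on the union
-/

set_option autoImplicit false
set_option linter.unusedSectionVars false

open Set Filter Topology MeasureTheory
open scoped ContDiff ComplexConjugate Real

noncomputable section

namespace Pool.Agent.H274.GV

open Pool.Agent.Y262.EG Pool.Agent.Y262.EL
open Pool.Agent.H240.AL Pool.Agent.H240.GU Pool.Agent.H240.GV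

/-- the Laplacian of the composition with a holomorphic map -/
lemma lap_comp {Ω S : Set ℂ} {g : ℂ → ℝ} {γ : ℂ → ℂ} (hO : IsOpen Ω) (hg : ContDiffOn ℝ ∞ g Ω)
    (hS : IsOpen S) (hγ : DifferentiableOn ℂ γ S) (hm : ∀ ζ ∈ S, γ ζ ∈ Ω) {ζ : ℂ} (hζ : ζ ∈ S) :
    px (px fun ξ => g (γ ξ)) ζ + py (py fun ξ => g (γ ξ)) ζ =
      ‖deriv γ ζ‖ ^ 2 * (px (px g) (γ ζ) + py (py g) (γ ζ)) := by
  have hd : ∀ ξ ∈ S, HasDerivAt γ (deriv γ ξ) ξ ∧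
      HasDerivAt (deriv γ) (deriv (deriv γ) ξ) ξ := fun ξ hξ =>
    ⟨(hγ.differentiableAt (hS.mem_nhds hξ)).hasDerivAt,
      ((hγ.deriv hS).differentiableAt (hS.mem_nhds hξ)).hasDerivAt⟩
  obtain ⟨hg1, hg2⟩ := hd ζ hζ
  obtain ⟨-, hdx, hdy⟩ := Pool.Agent.Y46.EG.dpx hO hg (hm ζ hζ)
  have hcx := Pool.Agent.Y46.EG.comp_deriv hdx hg1
  have hcy := Pool.Agent.Y46.EG.comp_deriv hdy hg1
  obtain ⟨⟨hra, hia⟩, ⟨ha1, ha2⟩, ⟨hb1, hb2⟩⟩ := Pool.Agent.Y46.EG.re_im_deriv hg2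
  have hevx : px (fun ξ => g (γ ξ)) =ᶠ[𝓝 ζ] fun ξ =>
      (deriv γ ξ).re * px g (γ ξ) + (deriv γ ξ).im * py g (γ ξ) := by
    filter_upwards [hS.mem_nhds hζ] with ξ hξ
    exact (Pool.Agent.Y46.EG.comp_deriv (Pool.Agent.Y46.EG.dpx hO hg (hm ξ hξ)).1 (hd ξ hξ).1).1
  have hevy : py (fun ξ => g (γ ξ)) =ᶠ[𝓝 ζ] fun ξ =>
      -(deriv γ ξ).im * px g (γ ξ) + (deriv γ ξ).re * py g (γ ξ) := by
    filter_upwards [hS.mem_nhds hζ] with ξ hξ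
    exact (Pool.Agent.Y46.EG.comp_deriv (Pool.Agent.Y46.EG.dpx hO hg (hm ξ hξ)).1 (hd ξ hξ).1).2
  have hA : DifferentiableAt ℝ (fun ξ => px g (γ ξ)) ζ :=
    hdx.comp ζ (hg1.differentiableAt.restrictScalars ℝ)
  have hB : DifferentiableAt ℝ (fun ξ => py g (γ ξ)) ζ :=
    hdy.comp ζ (hg1.differentiableAt.restrictScalars ℝ)
  have h1 : px (px fun ξ => g (γ ξ)) ζ = ((deriv γ ζ).re * px (fun ξ => px g (γ ξ)) ζ +
      px g (γ ζ) * px (fun ξ => (deriv γ ξ).re) ζ) +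
      ((deriv γ ζ).im * px (fun ξ => py g (γ ξ)) ζ +
      py g (γ ζ) * px (fun ξ => (deriv γ ξ).im) ζ) := by
    have hf : HasFDerivAt (fun ξ => (deriv γ ξ).re * px g (γ ξ) + (deriv γ ξ).im * py g (γ ξ))
        _ ζ :=
      (hra.differentiableAt.hasFDerivAt.mul hA.hasFDerivAt).add
        (hia.differentiableAt.hasFDerivAt.mul hB.hasFDerivAt)
    unfold px at hf ⊢
    unfold px at hevx
    rw [hevx.fderiv_eq, hf.fderiv]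
    simp
  have h2 : py (py fun ξ => g (γ ξ)) ζ = (-(deriv γ ζ).im * py (fun ξ => px g (γ ξ)) ζ -
      px g (γ ζ) * py (fun ξ => (deriv γ ξ).im) ζ) +
      ((deriv γ ζ).re * py (fun ξ => py g (γ ξ)) ζ +
      py g (γ ζ) * py (fun ξ => (deriv γ ξ).re) ζ) := by
    have hf : HasFDerivAt (fun ξ => -(deriv γ ξ).im * px g (γ ξ) + (deriv γ ξ).re * py g (γ ξ))
        _ ζ :=
      (hia.differentiableAt.hasFDerivAt.neg.mul hA.hasFDerivAt).add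
        (hra.differentiableAt.hasFDerivAt.mul hB.hasFDerivAt)
    unfold py at hf ⊢
    unfold py at hevy
    rw [hevy.fderiv_eq, hf.fderiv]
    simp
    ring
  have hn : ‖deriv γ ζ‖ ^ 2 = (deriv γ ζ).re ^ 2 + (deriv γ ζ).im ^ 2 := by
    rw [← Complex.normSq_eq_norm_sq, Complex.normSq_apply]; ring
  rw [hn, h1, h2, hcx.1, hcx.2, hcy.1, hcy.2, ha1, ha2, hb1, hb2]
  ring

lemma Sx_isOpen (x0 R : ℝ) : IsOpen (Sx x0 R) :=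
  isOpen_lt ((Complex.continuous_re.sub continuous_const).abs) continuous_const

section

variable {M : Type} {Ω : Set ℂ} {φ : ℂ → ℝ} {pr : ℂ → M} {Γ : ℂ → ℂ} {δ R0 : ℝ}

lemma not_mem (hR : ∀ z ∈ Ω, z.re < R0) {z : ℂ} (hz : z ∈ Sx (R0 + δ) δ) : z ∉ Ω := by
  intro h
  have h1 := hR z h
  have h2 : |z.re - (R0 + δ)| < δ := hz
  have h3 := (abs_lt.1 h2).1
  linarith

lemma sub_mem {z : ℂ} (hz : z ∈ Sx (R0 + δ) δ) : z - ((R0 + δ : ℝ) : ℂ) ∈ Sx 0 δ := by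
  have h2 : |z.re - (R0 + δ)| < δ := hz
  have h3 : (z - ((R0 + δ : ℝ) : ℂ)).re = z.re - (R0 + δ) := by
    rw [Complex.sub_re, Complex.ofReal_re]
  show |(z - ((R0 + δ : ℝ) : ℂ)).re - 0| < δ
  rw [h3, sub_zero]
  exact h2

/-- the map from the strip to `Ω` -/
def gm (Γ : ℂ → ℂ) (R0 δ : ℝ) (z : ℂ) : ℂ := Γ (z - ((R0 + δ : ℝ) : ℂ))

lemma gm_has (hC : Cg Ω pr Γ δ) {z : ℂ} (hz : z ∈ Sx (R0 + δ) δ) :
    HasDerivAt (gm Γ R0 δ) (deriv Γ (z - ((R0 + δ : ℝ) : ℂ))) z := by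
  have h1 : HasDerivAt Γ (deriv Γ (z - ((R0 + δ : ℝ) : ℂ))) (z - ((R0 + δ : ℝ) : ℂ)) :=
    (hC.hol.differentiableAt ((Sx_isOpen 0 δ).mem_nhds (sub_mem hz))).hasDerivAt
  exact h1.comp_sub_const z _

lemma gm_deriv (hC : Cg Ω pr Γ δ) {z : ℂ} (hz : z ∈ Sx (R0 + δ) δ) :
    deriv (gm Γ R0 δ) z = deriv Γ (z - ((R0 + δ : ℝ) : ℂ)) := (gm_has hC hz).deriv

lemma gm_diff (hC : Cg Ω pr Γ δ) : DifferentiableOn ℂ (gm Γ R0 δ) (Sx (R0 + δ) δ) :=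
  fun _ hz => (gm_has hC hz).differentiableAt.differentiableWithinAt

lemma gm_maps (hC : Cg Ω pr Γ δ) {z : ℂ} (hz : z ∈ Sx (R0 + δ) δ) : gm Γ R0 δ z ∈ Ω :=
  hC.maps _ (sub_mem hz)

lemma gm_ne (hC : Cg Ω pr Γ δ) {z : ℂ} (hz : z ∈ Sx (R0 + δ) δ) : deriv (gm Γ R0 δ) z ≠ 0 := by
  rw [gm_deriv hC hz]
  exact hC.d0 _ (sub_mem hz)

lemma gm_smooth (hC : Cg Ω pr Γ δ) : ContDiffOn ℝ ∞ (gm Γ R0 δ) (Sx (R0 + δ) δ) :=
  ((gm_diff hC).contDiffOn (n := ∞) (Sx_isOpen _ _)).restrict_scalars ℝ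

lemma Up_in {z : ℂ} (hz : z ∈ Ω) : Up Ω pr Γ R0 δ z = pr z := by
  classical
  unfold Up
  rw [if_pos hz]

lemma Up_out {z : ℂ} (hz : z ∉ Ω) : Up Ω pr Γ R0 δ z = pr (gm Γ R0 δ z) := by
  classical
  unfold Up gm
  rw [if_neg hz]

lemma Uf_in {z : ℂ} (hz : z ∈ Ω) : Uf Ω φ Γ R0 δ z = φ z := by
  classical
  unfold Uf
  rw [if_pos hz]

lemma Uf_out (hC : Cg Ω pr Γ δ) (hR : ∀ z ∈ Ω, z.re < R0) {z : ℂ} (hz : z ∈ Sx (R0 + δ) δ) :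
    Uf Ω φ Γ R0 δ z = φ (gm Γ R0 δ z) + Real.log ‖deriv (gm Γ R0 δ) z‖ := by
  classical
  rw [gm_deriv hC hz]
  unfold Uf Pb gm
  rw [if_neg (not_mem hR hz)]

lemma mem_Uo {z : ℂ} : z ∈ Uo Ω R0 δ ↔ z ∈ Ω ∨ z ∈ Sx (R0 + δ) δ := Iff.rfl

lemma Uo_open (hO : IsOpen Ω) : IsOpen (Uo Ω R0 δ) := hO.union (Sx_isOpen (R0 + δ) δ)

lemma Uf_smooth (hO : IsOpen Ω) (hφ : ContDiffOn ℝ ∞ φ Ω) (hC : Cg Ω pr Γ δ)
    (hR : ∀ z ∈ Ω, z.re < R0) : ContDiffOn ℝ ∞ (Uf Ω φ Γ R0 δ) (Uo Ω R0 δ) := by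
  intro z hz
  refine ContDiffAt.contDiffWithinAt ?_
  rcases mem_Uo.1 hz with h | h
  · have h1 : ContDiffAt ℝ ∞ φ z := hφ.contDiffAt (hO.mem_nhds h)
    refine h1.congr_of_eventuallyEq ?_
    filter_upwards [hO.mem_nhds h] with ξ hξ using Uf_in hξ
  · have hS : IsOpen (Sx (R0 + δ) δ) := Sx_isOpen _ _
    have h1 : ContDiffAt ℝ ∞ (gm Γ R0 δ) z := (gm_smooth hC).contDiffAt (hS.mem_nhds h)
    have h2 : ContDiffAt ℝ ∞ φ (gm Γ R0 δ z) := hφ.contDiffAt (hO.mem_nhds (gm_maps hC h))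
    have h3 : ContDiffAt ℝ ∞ (fun ξ => φ (gm Γ R0 δ ξ)) z := h2.comp z h1
    have h4 : ContDiffAt ℝ ∞ (deriv (gm Γ R0 δ)) z :=
      ((((gm_diff hC).deriv hS).contDiffOn (n := ∞) hS).restrict_scalars ℝ).contDiffAt
        (hS.mem_nhds h)
    have h5 : ContDiffAt ℝ ∞ (fun ξ => ‖deriv (gm Γ R0 δ) ξ‖) z := h4.norm ℝ (gm_ne hC h)
    have h6 : ContDiffAt ℝ ∞ (fun ξ => Real.log ‖deriv (gm Γ R0 δ) ξ‖) z :=
      h5.log (by simpa using gm_ne hC h)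
    refine (h3.add h6).congr_of_eventuallyEq ?_
    filter_upwards [hS.mem_nhds h] with ξ hξ using Uf_out hC hR hξ

lemma fUp_smooth (hO : IsOpen Ω) (hC : Cg Ω pr Γ δ) (hR : ∀ z ∈ Ω, z.re < R0) (f : M → ℝ)
    (hf : ContDiffOn ℝ ∞ (fun z => f (pr z)) Ω) :
    ContDiffOn ℝ ∞ (fun z => f (Up Ω pr Γ R0 δ z)) (Uo Ω R0 δ) := by
  intro z hz
  refine ContDiffAt.contDiffWithinAt ?_
  rcases mem_Uo.1 hz with h | h
  · have h1 : ContDiffAt ℝ ∞ (fun z => f (pr z)) z := hf.contDiffAt (hO.mem_nhds h)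
    refine h1.congr_of_eventuallyEq ?_
    filter_upwards [hO.mem_nhds h] with ξ hξ
    rw [Up_in hξ]
  · have hS : IsOpen (Sx (R0 + δ) δ) := Sx_isOpen _ _
    have h1 : ContDiffAt ℝ ∞ (gm Γ R0 δ) z := (gm_smooth hC).contDiffAt (hS.mem_nhds h)
    have h2 : ContDiffAt ℝ ∞ (fun z => f (pr z)) (gm Γ R0 δ z) :=
      hf.contDiffAt (hO.mem_nhds (gm_maps hC h))
    have h3 : ContDiffAt ℝ ∞ (fun ξ => f (pr (gm Γ R0 δ ξ))) z := h2.comp z h1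
    refine h3.congr_of_eventuallyEq ?_
    filter_upwards [hS.mem_nhds h] with ξ hξ
    rw [Up_out (not_mem hR hξ)]

lemma px_ev {g g' : ℂ → ℝ} {z : ℂ} (h : g =ᶠ[𝓝 z] g') : px g =ᶠ[𝓝 z] px g' := by
  filter_upwards [h.eventuallyEq_nhds] with ξ hξ
  unfold px
  rw [hξ.fderiv_eq]

lemma py_ev {g g' : ℂ → ℝ} {z : ℂ} (h : g =ᶠ[𝓝 z] g') : py g =ᶠ[𝓝 z] py g' := by
  filter_upwards [h.eventuallyEq_nhds] with ξ hξ
  unfold py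
  rw [hξ.fderiv_eq]

lemma lap_ev {g g' : ℂ → ℝ} {z : ℂ} (h : g =ᶠ[𝓝 z] g') :
    px (px g) z + py (py g) z = px (px g') z + py (py g') z := by
  rw [(px_ev (px_ev h)).eq_of_nhds, (py_ev (py_ev h)).eq_of_nhds]

lemma curv_ev {g g' : ℂ → ℝ} {z : ℂ} (h : g =ᶠ[𝓝 z] g') : curv g z = curv g' z := by
  unfold curv
  rw [lap_ev h, h.eq_of_nhds]

lemma curv_Uf (hO : IsOpen Ω) (hφ : ContDiffOn ℝ ∞ φ Ω) (hC : Cg Ω pr Γ δ)
    (hR : ∀ z ∈ Ω, z.re < R0) {z : ℂ} (hz : z ∈ Sx (R0 + δ) δ) :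
    curv (Uf Ω φ Γ R0 δ) z = curv φ (Γ (z - ((R0 + δ : ℝ) : ℂ))) := by
  have hS : IsOpen (Sx (R0 + δ) δ) := Sx_isOpen _ _
  obtain ⟨r, hr, hsub⟩ := Metric.isOpen_iff.1 hS z hz
  have h1 : curv (Uf Ω φ Γ R0 δ) (gm Γ R0 δ z) = curv (Uf Ω φ Γ R0 δ) z := by
    refine Pool.Agent.Y46.EG.curv_eq (z0 := z) (r := r) (Uo_open (R0 := R0) (δ := δ) hO)
      (Uf_smooth hO hφ hC hR) ((gm_diff hC).mono hsub) ?_ (Metric.mem_ball_self hr)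
    intro ζ hζ
    have hζ' := hsub hζ
    refine ⟨mem_Uo.2 (Or.inl (gm_maps hC hζ')), gm_ne hC hζ', ?_⟩
    rw [Uf_in (gm_maps hC hζ'), Uf_out hC hR hζ']
  rw [← h1]
  refine curv_ev ?_
  filter_upwards [hO.mem_nhds (gm_maps hC hz)] with ξ hξ using Uf_in hξ

lemma ef_Up (hO : IsOpen Ω) (hC : Cg Ω pr Γ δ) (hR : ∀ z ∈ Ω, z.re < R0)
    (f : M → ℝ) (lam : ℝ) (u : M → ℝ) (hu : IsEf Ω (fun z => φ z + f (pr z)) pr lam u) :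
    IsEf (Uo Ω R0 δ) (fun z => Uf Ω φ Γ R0 δ z + f (Up Ω pr Γ R0 δ z)) (Up Ω pr Γ R0 δ) lam u := by
  refine ⟨fUp_smooth hO hC hR u hu.1, ?_⟩
  intro z hz
  rcases mem_Uo.1 hz with h | h
  · have hev : (fun z => u (Up Ω pr Γ R0 δ z)) =ᶠ[𝓝 z] fun z => u (pr z) := by
      filter_upwards [hO.mem_nhds h] with ξ hξ
      rw [Up_in hξ]
    have h1 := hu.2 z h
    rw [lap_ev hev]
    beta_reduce at h1 ⊢
    rw [Uf_in h, Up_in h]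
    exact h1
  · have hS : IsOpen (Sx (R0 + δ) δ) := Sx_isOpen _ _
    have hev : (fun z => u (Up Ω pr Γ R0 δ z)) =ᶠ[𝓝 z] fun z =>
        (fun ξ => u (pr ξ)) (gm Γ R0 δ z) := by
      filter_upwards [hS.mem_nhds h] with ξ hξ
      rw [Up_out (not_mem hR hξ)]
    have h1 := hu.2 _ (gm_maps hC h)
    have h2 := lap_comp hO hu.1 hS (gm_diff hC) (fun ζ hζ => gm_maps hC hζ) h
    have hp : 0 < ‖deriv (gm Γ R0 δ) z‖ := norm_pos_iff.2 (gm_ne hC h)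
    have h3 : Real.exp (-2 * (φ (gm Γ R0 δ z) + Real.log ‖deriv (gm Γ R0 δ) z‖ +
        f (pr (gm Γ R0 δ z)))) * ‖deriv (gm Γ R0 δ) z‖ ^ 2 =
        Real.exp (-2 * (φ (gm Γ R0 δ z) + f (pr (gm Γ R0 δ z)))) := by
      have e1 : ‖deriv (gm Γ R0 δ) z‖ ^ 2 = Real.exp (2 * Real.log ‖deriv (gm Γ R0 δ) z‖) := by
        rw [two_mul, Real.exp_add, Real.exp_log hp]
        ring
      rw [e1, ← Real.exp_add]
      ring_nf
    rw [lap_ev hev]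
    beta_reduce at h1 h2 ⊢
    rw [h2, Uf_out hC hR h, Up_out (not_mem hR h), ← h1, ← mul_assoc, h3]

lemma co_U (hC : Cg Ω pr Γ δ) (hR : ∀ z ∈ Ω, z.re < R0) :
    Co (Uo Ω R0 δ) (Up Ω pr Γ R0 δ) (R0 + δ) δ := by
  refine ⟨hC.δp, fun z hz => mem_Uo.2 (Or.inr hz), ?_⟩
  intro z w hz hw
  have hz' : z ∈ Sx (R0 + δ) δ := hz
  have hw' : w ∈ Sx (R0 + δ) δ := hw
  rw [Up_out (not_mem hR hz'), Up_out (not_mem hR hw')]
  have h1 := hC.per _ (sub_mem hz') _ (sub_mem hw')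
  unfold gm
  rw [h1]
  constructor
  · rintro ⟨n, hn⟩
    refine ⟨n, ?_⟩
    linear_combination hn
  · rintro ⟨n, hn⟩
    refine ⟨n, ?_⟩
    linear_combination hn

end

theorem stUn2 : StUn2 := by
  intro M P _ _ _ _ Ω φ pr q Γ δ R0 hU hC hR
  refine ⟨co_U hC hR, fun z hz => curv_Uf hU.opn hU.smooth hC hR hz,
    fun f hf => fUp_smooth hU.opn hC hR f hf, fun f lam u _ hu => ef_Up hU.opn hC hR f lam u hu⟩

end Pool.Agent.H274.GV
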